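import Pool.Agent.Helper5.NX.Basic
import Pool.Agent.Helper85.NX.Form

/-!
# NX-30 : replacing all functions by averages
-/

set_option autoImplicit false

open Finset
open scoped BigOperators ComplexConjugate

namespace Pool.Agent.Helper57.NX

noncomputable section

/-- the hybrid functions -/
def hyb {m N : ℕ} (f : Fin m → ZMod N → ℂ) (L : Fin m → ℕ) (t : ℕ) (i : Fin m) : ZMod N → ℂ :=
  if (i : ℕ) < t then A (L i) (f i) else f i

theorem hyb_zero {m N : ℕ} (f : Fin m → ZMod N → ℂ) (L : Fin m → ℕ) : hyb f L 0 = f := by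
  funext i
  simp [hyb]

theorem hyb_last {m N : ℕ} (f : Fin m → ZMod N → ℂ) (L : Fin m → ℕ) :
    hyb f L m = fun i => A (L i) (f i) := by
  funext i
  simp [hyb]

theorem hyb_self {m N : ℕ} (f : Fin m → ZMod N → ℂ) (L : Fin m → ℕ) (i : Fin m) :
    hyb f L i = Function.update (hyb f L i) i (f i) := by
  funext j
  by_cases hj : j = i
  · subst hj
    simp [hyb]
  · simp [hj]

theorem hyb_succ {m N : ℕ} (f : Fin m → ZMod N → ℂ) (L : Fin m → ℕ) (i : Fin m) :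
    hyb f L (i + 1) = Function.update (hyb f L i) i (A (L i) (f i)) := by
  funext j
  by_cases hj : j = i
  · subst hj
    simp [hyb]
  · have h1 : (j : ℕ) ≠ i := fun h => hj (Fin.ext h)
    rw [Function.update_of_ne hj]
    unfold hyb
    by_cases h2 : (j : ℕ) < i
    · rw [if_pos h2, if_pos (by omega)]
    · rw [if_neg h2, if_neg (by omega)]

theorem form_replace (m : ℕ) (c : Fin m → ℝ) (hU : ∀ ε : ℝ, 0 < ε → UP m c ε) :
    ∀ ε : ℝ, 0 < ε → ∃ x0 : ℝ, 0 < x0 ∧ ∃ σ : ℝ, 0 < σ ∧ ∃ D0 : ℝ,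
    ∀ (S : Sys m) (N : ℕ) [NeZero N], D0 ≤ S.D → Good S c N x0 →
    ∀ (f0 : ZMod N → ℂ) (f : Fin m → ZMod N → ℂ), Adm 8 S.Q f0 → (∀ i, Adm 8 S.Q (f i)) →
    ∀ L : Fin m → ℕ, (∀ i, 1 ≤ L i ∧ (L i : ℝ) ≤ S.P i * S.D ^ (-ε)) →
    ‖form S c 1 f0 f - form S c 1 f0 (fun i => A (L i) (f i))‖ ≤ S.D ^ (-σ) := by
  intro ε hε
  obtain ⟨x0, hx0, C, σ', hσ', D0, h⟩ := hU (ε / 2) (by linarith)
  set σ1 : ℝ := min σ' (ε / (4 * (C + 1))) with hσ1
  have hC1 : (0 : ℝ) < 4 * (C + 1) := by positivity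
  have hσ10 : 0 < σ1 := lt_min hσ' (by positivity)
  have hσ1C : σ1 * C ≤ ε / 4 := by
    have h1 : σ1 ≤ ε / (4 * (C + 1)) := min_le_right _ _
    have h2 : σ1 * (4 * (C + 1)) ≤ ε := by rwa [le_div_iff₀ hC1] at h1
    nlinarith
  have ht1 := (tendsto_rpow_atTop hσ10).eventually_ge_atTop 8
  have ht2 := (tendsto_rpow_atTop (show (0 : ℝ) < ε / 4 by linarith)).eventually_gt_atTop 2
  have ht3 := (tendsto_rpow_atTop (show (0 : ℝ) < σ1 / 2 by linarith)).eventually_ge_atTop (2 * m)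
  obtain ⟨D1, hD1⟩ := Filter.eventually_atTop.mp ((ht1.and ht2).and ht3)
  refine ⟨x0, hx0, σ1 / 2, by linarith, max D0 (max D1 1), ?_⟩
  intro S N _ hD hG f0 f hf0 hf L hL
  have hDD0 : D0 ≤ S.D := (le_max_left _ _).trans hD
  have hDD1 : D1 ≤ S.D := ((le_max_left _ _).trans (le_max_right _ _)).trans hD
  have hDone : 1 ≤ S.D := ((le_max_right _ _).trans (le_max_right _ _)).trans hD
  have hDpos : 0 < S.D := by linarith
  obtain ⟨⟨hd1, hd2⟩, hd3⟩ := hD1 S.D hDD1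
  have hQpos : (0 : ℝ) < S.Q := lt_of_lt_of_le (by positivity) hG.Q1
  set δ : ℝ := S.D ^ (-σ1) with hδ
  have hδ0 : 0 < δ := by positivity
  have hδinv : δ⁻¹ = S.D ^ σ1 := by rw [hδ, Real.rpow_neg hDpos.le, inv_inv]
  have hδ8 : 8 ≤ δ⁻¹ := by rw [hδinv]; exact hd1
  have hδle : δ ≤ 1 / 2 := by
    have h1 : δ * δ⁻¹ = 1 := mul_inv_cancel₀ hδ0.ne'
    nlinarith
  have hδσ : S.D ^ (-σ') ≤ δ :=
    Real.rpow_le_rpow_of_exponent_le hDone (neg_le_neg (min_le_left _ _))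
  have hδC : S.D ^ (-(ε / 4)) ≤ δ ^ C := by
    rw [hδ, ← Real.rpow_natCast, ← Real.rpow_mul hDpos.le]
    exact Real.rpow_le_rpow_of_exponent_le hDone (by linarith)
  have hm0 : Adm δ⁻¹ S.Q f0 := hf0.mono hδ8 hQpos le_rfl
  have hadmA : ∀ i, Adm 8 S.Q (A (L i) (f i)) := fun i => ⟨norm_A_le (hf i).bdd _, (hf i).tv.avg _⟩
  have hhyb : ∀ t i, Adm 8 S.Q (hyb f L t i) := by
    intro t i
    unfold hyb
    split_ifs
    · exact hadmA i
    · exact hf i
  have key : ∀ i : Fin m, ‖form S c 1 f0 (hyb f L i) - form S c 1 f0 (hyb f L (i + 1))‖ ≤ 2 * δ := by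
    intro i
    set w : ZMod N → ℂ := fun x => (1 / 2 : ℂ) * (f i x - A (L i) (f i) x) with hw
    have hwadm : Adm 8 S.Q w := by
      refine ⟨fun x => ?_, ?_⟩
      · rw [hw]
        simp only [norm_mul]
        have h1 : ‖f i x - A (L i) (f i) x‖ ≤ 1 + 1 :=
          (norm_sub_le _ _).trans (add_le_add ((hf i).bdd x) ((hadmA i).bdd x))
        have h2 : ‖(1 / 2 : ℂ)‖ = 1 / 2 := by norm_num
        rw [h2]; linarith
      · have h1 := ((hf i).tv.sub (hadmA i).tv).smul (1 / 2 : ℂ)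
        have h2 : ‖(1 / 2 : ℂ)‖ * (8 + 8) = (8 : ℝ) := by norm_num
        rw [h2] at h1
        exact h1
    have hdiff : form S c 1 f0 (hyb f L i) - form S c 1 f0 (hyb f L (i + 1)) =
        2 * form S c 1 f0 (Function.update (hyb f L i) i w) := by
      rw [hw, form_update_smul, form_update_sub, ← hyb_succ, ← hyb_self]
      ring
    rw [hdiff, norm_mul]
    have h2 : ‖(2 : ℂ)‖ = 2 := by norm_num
    rw [h2]
    refine mul_le_mul_of_nonneg_left ?_ (by norm_num)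
    by_contra hcon
    push Not at hcon
    have hadm : ∀ j, Adm δ⁻¹ S.Q (Function.update (hyb f L i) i w j) := by
      intro j
      by_cases hj : j = i
      · subst hj
        rw [Function.update_self]
        exact hwadm.mono hδ8 hQpos le_rfl
      · rw [Function.update_of_ne hj]
        exact (hhyb i j).mono hδ8 hQpos le_rfl
    obtain ⟨hLi1, hLi2⟩ := hL i
    have hLi1' : (1 : ℝ) ≤ L i := by exact_mod_cast hLi1
    have hPpos : 0 < S.P i := by
      have h3 : 0 < S.P i * S.D ^ (-ε) := by linarith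
      exact pos_of_mul_pos_left h3 (by positivity)
    set y : ℝ := S.P i * S.D ^ (-(ε / 2)) with hy
    have hyL : (L i : ℝ) * S.D ^ (ε / 2) ≤ y := by
      have h3 : S.D ^ (-(ε / 2)) = S.D ^ (-ε) * S.D ^ (ε / 2) := by
        rw [← Real.rpow_add hDpos]; congr 1; ring
      rw [hy, h3, ← mul_assoc]
      exact mul_le_mul_of_nonneg_right hLi2 (by positivity)
    have hDe : 1 ≤ S.D ^ (ε / 2) := Real.one_le_rpow hDone (by linarith)
    have hy1 : 1 ≤ y := by nlinarith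
    have hfl1 : 1 ≤ ⌊y⌋₊ := Nat.one_le_floor_iff _ |>.mpr hy1
    have hfl2 : y / 2 ≤ (⌊y⌋₊ : ℝ) := by
      have h3 := Nat.lt_floor_add_one y
      have h4 : (1 : ℝ) ≤ (⌊y⌋₊ : ℝ) := by exact_mod_cast hfl1
      linarith
    have h5 := h S N hDD0 hG δ hδσ hδle f0 (Function.update (hyb f L i) i w) hm0 hadm hcon.le i
      ⌊y⌋₊ hfl1 (Nat.floor_le (by linarith))
    rw [Function.update_self] at h5
    have h6 : nrm (A ⌊y⌋₊ w) ≤ (L i : ℝ) / ⌊y⌋₊ := by
      unfold nrm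
      refine expect_le_of5 _ _ (by positivity) fun x _ => ?_
      have h7 : A ⌊y⌋₊ w x = (1 / 2 : ℂ) * A ⌊y⌋₊ (fun z => f i z - A (L i) (f i) z) x := by
        rw [hw]
        unfold A
        rw [Finset.mul_expect]
      rw [h7, norm_mul]
      have h8 := A_small (hf i).bdd ⌊y⌋₊ (L i) hfl1 hLi1 x
      have h9 : ‖(1 / 2 : ℂ)‖ = 1 / 2 := by norm_num
      rw [h9]
      calc 1 / 2 * ‖A ⌊y⌋₊ (fun z => f i z - A (L i) (f i) z) x‖ ≤ 1 / 2 * (2 * L i / ⌊y⌋₊) :=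
            mul_le_mul_of_nonneg_left h8 (by norm_num)
        _ = (L i : ℝ) / ⌊y⌋₊ := by ring
    have hypos : 0 < y := by linarith
    have hflpos : (0 : ℝ) < ⌊y⌋₊ := by linarith
    have h10 : (L i : ℝ) / ⌊y⌋₊ ≤ 2 * S.D ^ (-(ε / 2)) := by
      rw [div_le_iff₀ hflpos]
      have h11 : S.D ^ (-(ε / 2)) * S.D ^ (ε / 2) = 1 := by
        rw [← Real.rpow_add hDpos, neg_add_cancel, Real.rpow_zero]
      have h12 : (0 : ℝ) < S.D ^ (-(ε / 2)) := by positivity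
      calc (L i : ℝ) = (L i * S.D ^ (ε / 2)) * S.D ^ (-(ε / 2)) := by
            rw [mul_assoc, mul_comm (S.D ^ (ε / 2)), h11, mul_one]
        _ ≤ y * S.D ^ (-(ε / 2)) := mul_le_mul_of_nonneg_right hyL h12.le
        _ ≤ (2 * ⌊y⌋₊) * S.D ^ (-(ε / 2)) :=
            mul_le_mul_of_nonneg_right (by linarith) h12.le
        _ = 2 * S.D ^ (-(ε / 2)) * ⌊y⌋₊ := by ring
    have h13 : S.D ^ (-(ε / 4)) ≤ 2 * S.D ^ (-(ε / 2)) := hδC.trans (h5.trans (h6.trans h10))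
    have h14 : S.D ^ (-(ε / 4)) * S.D ^ (ε / 2) = S.D ^ (ε / 4) := by
      rw [← Real.rpow_add hDpos]; congr 1; ring
    have h15 : S.D ^ (-(ε / 2)) * S.D ^ (ε / 2) = 1 := by
      rw [← Real.rpow_add hDpos, neg_add_cancel, Real.rpow_zero]
    have h16 : (0 : ℝ) < S.D ^ (ε / 2) := by positivity
    have h17 := mul_le_mul_of_nonneg_right h13 h16.le
    rw [h14, mul_assoc, h15, mul_one] at h17
    linarith
  have htel : ‖form S c 1 f0 (hyb f L 0) - form S c 1 f0 (hyb f L m)‖ ≤ m * (2 * δ) := by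
    have h1 := dist_le_range_sum_dist (fun t => form S c 1 f0 (hyb f L t)) m
    rw [dist_eq_norm] at h1
    refine h1.trans ?_
    refine (sum_le_card_nsmul _ _ (2 * δ) fun t ht => ?_).trans (le_of_eq ?_)
    · rw [dist_eq_norm]
      exact key ⟨t, mem_range.mp ht⟩
    · rw [card_range, nsmul_eq_mul]
  rw [hyb_zero, hyb_last] at htel
  refine htel.trans ?_
  have h18 : δ = S.D ^ (-(σ1 / 2)) * S.D ^ (-(σ1 / 2)) := by
    rw [hδ, ← Real.rpow_add hDpos]; congr 1; ring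
  have h19 : S.D ^ (-(σ1 / 2)) * S.D ^ (σ1 / 2) = 1 := by
    rw [← Real.rpow_add hDpos, neg_add_cancel, Real.rpow_zero]
  have h20 : (0 : ℝ) < S.D ^ (-(σ1 / 2)) := by positivity
  calc (m : ℝ) * (2 * δ) = (2 * m) * S.D ^ (-(σ1 / 2)) * S.D ^ (-(σ1 / 2)) := by rw [h18]; ring
    _ ≤ S.D ^ (σ1 / 2) * S.D ^ (-(σ1 / 2)) * S.D ^ (-(σ1 / 2)) := by gcongr
    _ = S.D ^ (-(σ1 / 2)) := by rw [mul_comm (S.D ^ (σ1 / 2)), h19, one_mul]

end

end Pool.Agent.Helper57.NX
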