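import Pool.Agent.Helper57.NX.Defs3
import Pool.Agent.Helper57.FP.TreeMain

/-!
# NX-32 : counting in the tree theorem, fixed shifts
-/

set_option autoImplicit false

open Finset
open scoped BigOperators ComplexConjugate

namespace Pool.Agent.Helper57.NX

noncomputable section

open Pool.Agent.Helper57.FP in
/-- counting version of the tree theorem, fixed shifts -/
theorem tree_fixed (δ : ℝ) (hδ : 0 < δ) (l c M : ℕ) (hc : 1 ≤ c) :
    ∃ τ : ℝ, 0 < τ ∧ ∃ z0 : ℕ, ∀ z : ℕ, z0 ≤ z → ∀ A : Finset ℕ, (∀ p ∈ A, p.Prime ∧ p < 2 ^ z) →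
    δ * ((2 : ℝ) ^ z / Real.log ((2 : ℝ) ^ z)) ≤ A.card →
    ∃ β : ℕ, z ^ M ≤ 2 ^ β ∧ (c + 1) * β ≤ z ∧ ∀ y : Fin l → ℕ, (∀ i, 1 ≤ y i) →
      (∀ i j, i < j → y i + (2 ^ β) ^ 2 < y j) → (∀ i, y i + (2 ^ β) ^ 2 ≤ 2 ^ (c * β)) →
      τ * ((2 : ℝ) ^ z / Real.log ((2 : ℝ) ^ z) ^ (l + 1)) * (((2 : ℝ) ^ β) ^ 2) ^ l ≤
        (#((A ×ˢ (univ : Finset (Fin l → Fin ((2 ^ β) ^ 2)))).filter
          fun pu => ∀ i, pu.1 + y i + (pu.2 i : ℕ) ∈ A) : ℝ) := by
  classical
  choose C hC Z0 hP using pair_bound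
  set τ : ℕ → ℝ := fun k => δ / 4 * (δ / 16) ^ k with hτ
  have hτ0 : ∀ k, 0 < τ k := fun k => by simp only [hτ]; positivity
  obtain ⟨ε, hε, hεle⟩ := exists_pos_le l (fun k => τ k ^ 2 / 16 / C k)
    (fun k => div_pos (by have := hτ0 k; positivity) (hC k))
  obtain ⟨Zm, hZm⟩ := exists_nat_ge l Z0
  obtain ⟨z1, hz1⟩ := energy_main δ ε hδ hε c (max M (l + 1)) hc
  refine ⟨τ l, hτ0 l, max (max z1 Zm) 2, ?_⟩
  intro z hz A hA hcard
  have hzz1 : z1 ≤ z := (le_max_left _ _).trans ((le_max_left _ _).trans hz)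
  have hzZm : Zm ≤ z := (le_max_right _ _).trans ((le_max_left _ _).trans hz)
  have hz2 : 2 ≤ z := (le_max_right _ _).trans hz
  obtain ⟨β, hβ0, hβ2, J, hJ, G, hGA, hG, hgood⟩ := hz1 z hzz1 A hA hcard
  have hβ1 : z ^ (l + 1) ≤ 2 ^ β :=
    (Nat.pow_le_pow_right (by omega) (le_max_right _ _)).trans hβ0
  have hβM : z ^ M ≤ 2 ^ β :=
    (Nat.pow_le_pow_right (by omega) (le_max_left _ _)).trans hβ0
  have hzβ : z ≤ 2 ^ β := by
    refine le_trans ?_ hβ1
    calc z = z ^ 1 := (pow_one z).symm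
      _ ≤ z ^ (l + 1) := Nat.pow_le_pow_right (by omega) (by omega)
  refine ⟨β, hβM, hβ2, ?_⟩
  intro y hy1 hy2 hy3
  set s : ℕ → ℕ → ℕ := fun i x => if h : i < l then max (x + 1) (y ⟨i, h⟩) else x + 1 with hsdef
  have hs : ∀ i x, x < s i x := by
    intro i x
    simp only [hsdef]
    split_ifs with h
    · exact lt_of_lt_of_le (Nat.lt_succ_self x) (le_max_left _ _)
    · exact Nat.lt_succ_self x
  have hsv : ∀ (i : ℕ) (hi : i < l) (x : ℕ), x < y ⟨i, hi⟩ → s i x = y ⟨i, hi⟩ := by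
    intro i hi x hx
    simp only [hsdef, hi, dif_pos]
    exact max_eq_right (by omega)
  have hXlt : ∀ (u : Fin l → Fin ((2 ^ β) ^ 2)) (i : ℕ) (hi : i < l), X s u i < y ⟨i, hi⟩ := by
    intro u i
    induction i with
    | zero =>
      intro hi
      rw [X_zero]
      exact hy1 _
    | succ i ih =>
      intro hi
      have hil : i < l := by omega
      have h1 := ih hil
      rw [X_succ s u hil]
      rw [hsv i hil _ h1]
      have h3 := hy2 ⟨i, hil⟩ ⟨i + 1, hi⟩ (by simp)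
      have h4 := (u ⟨i, hil⟩).2
      omega
  have hsX : ∀ (u : Fin l → Fin ((2 ^ β) ^ 2)) (i : ℕ) (hi : i < l),
      s i (X s u i) = y ⟨i, hi⟩ := by
    intro u i hi
    exact hsv i hi _ (hXlt u i hi)
  have hS : ∀ i < l, ∀ u : Fin l → Fin ((2 ^ β) ^ 2),
      s i (X s u i) + (2 ^ β) ^ 2 ≤ 2 ^ (c * β) := by
    intro i hi u
    rw [hsX u i hi]
    exact hy3 _
  set B : ℕ := 2 ^ β with hB
  have hB2 : 2 ≤ B := hz2.trans hzβ
  have hBr : (B : ℝ) = (2 : ℝ) ^ β := by rw [hB]; push_cast; rfl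
  set Z : ℕ := 2 ^ z with hZ
  have hZr : (Z : ℝ) = (2 : ℝ) ^ z := by rw [hZ]; push_cast; rfl
  set lz : ℝ := Real.log Z with hlz
  have hlz' : Real.log ((2 : ℝ) ^ z) = lz := by rw [hlz, hZr]
  have hlzeq : lz = z * Real.log 2 := by rw [← hlz', Real.log_pow]
  have hlog2 : 0 < Real.log 2 := Real.log_pos (by norm_num)
  have hlog2' : Real.log 2 ≤ 1 := by
    have := Real.log_two_lt_d9; linarith
  have hz0' : (0 : ℝ) < z := by exact_mod_cast (by omega : 0 < z)
  have hlz0 : 0 < lz := by rw [hlzeq]; positivity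
  have hlzz : lz ≤ z := by rw [hlzeq]; nlinarith
  rw [hlz', ← hZr] at hG
  rw [← hZr, ← hBr] at hJ
  have hcβz : c * β ≤ z := by
    have : (c + 1) * β = c * β + β := Nat.succ_mul c β
    omega
  -- all shifts are small
  have hL2 : 2 ^ z ≤ 2 ^ (B ^ 2) := by
    apply Nat.pow_le_pow_right (by norm_num)
    nlinarith
  have hsmall : ∀ i < l, ∀ u : Fin l → Fin (B ^ 2), s i (X s u i) ≤ 2 ^ (B ^ 2) := by
    intro i hi u
    have h1 := hS i hi u
    have h2 : 2 ^ (c * β) ≤ 2 ^ z := Nat.pow_le_pow_right (by norm_num) hcβz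
    omega
  have hsmall' : ∀ i < l, ∀ u : Fin l → Fin (B ^ 2), X s u i ≤ 2 ^ (B ^ 2) := fun i hi u =>
    ((hs i (X s u i)).le).trans (hsmall i hi u)
  have hmain : ∀ k ≤ l, τ k * (Z / lz ^ (k + 1)) * ((B ^ 2 : ℕ) : ℝ) ^ l ≤
      (FP.TG G A l (B ^ 2) k s).card := by
    intro k
    induction k with
    | zero =>
      intro _
      have h1 : FP.TG G A l (B ^ 2) 0 s = G ×ˢ univ := by
        ext c
        rw [FP.mem_TG, Finset.mem_product]
        constructor
        · rintro ⟨h, _⟩; exact ⟨h, Finset.mem_univ _⟩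
        · rintro ⟨h, _⟩
          refine ⟨h, fun i hi => ?_⟩
          have : i = 0 := by omega
          subst this
          rw [X_zero, add_zero]
          exact hGA h
      rw [h1, Finset.card_product, Finset.card_univ, Fintype.card_fun, Fintype.card_fin,
        Fintype.card_fin]
      simp only [hτ, pow_zero, mul_one, zero_add, pow_one]
      push_cast
      have h2 : (0 : ℝ) ≤ ((B : ℝ) ^ 2) ^ l := by positivity
      exact mul_le_mul_of_nonneg_right hG h2
    | succ k ih =>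
      intro hk
      have hkl : k < l := by omega
      have h1 := step (G := G) (A := A) (J := J) (l := l) (B := B) (k := k) (Z := Z)
        (S := 2 ^ (c * β)) (s := s) hkl hB2 (δ := δ) (ε := ε) (lz := lz) (τ := τ k) (C := C k)
        hδ hε hlz0 (hτ0 k) (hC k) (by positivity)
        (by
          have := hεle k hkl
          rwa [le_div_iff₀ (hC k)] at this) hA hGA hJ
        (by
          intro p hp j h1 h2 h3
          have := hgood p hp j h1 h2 h3
          rw [hlz', ← hBr] at this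
          exact this)
        (hS k hkl)
        (by
          apply hP k Z ((hZm k hkl).trans (hzZm.trans Nat.lt_two_pow_self.le)) l (B ^ 2) s hkl.le
          · calc lz ^ (2 * k + 2) ≤ (z : ℝ) ^ (2 * k + 2) := by gcongr
              _ ≤ (z : ℝ) ^ (2 * (l + 1)) := by
                  apply pow_le_pow_right₀
                  · exact_mod_cast (by omega : 1 ≤ z)
                  · omega
              _ = ((z : ℝ) ^ (l + 1)) ^ 2 := by rw [mul_comm, pow_mul]
              _ ≤ (B : ℝ) ^ 2 := by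
                  have : (z : ℝ) ^ (l + 1) ≤ B := by exact_mod_cast hβ1
                  gcongr
              _ = ((B ^ 2 : ℕ) : ℝ) := by push_cast; rfl
          · exact hs
          · intro u i hi
            exact hsmall' i (by omega) u
          · exact hsmall k hkl)
        (ih hkl.le)
      have h2 : τ (k + 1) = δ / 16 * τ k := by simp only [hτ]; ring
      rw [h2]
      exact h1
  have h1 := hmain l le_rfl
  rw [hlz', ← hZr, ← hBr]
  have h2 : ((B ^ 2 : ℕ) : ℝ) ^ l = ((B : ℝ) ^ 2) ^ l := by push_cast; rfl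
  rw [h2] at h1
  refine h1.trans ?_
  have h3 : FP.TG G A l (B ^ 2) l s ⊆ (A ×ˢ (univ : Finset (Fin l → Fin (B ^ 2)))).filter
      fun pu => ∀ i, pu.1 + y i + (pu.2 i : ℕ) ∈ A := by
    intro pu hpu
    rw [FP.mem_TG] at hpu
    rw [Finset.mem_filter, Finset.mem_product]
    refine ⟨⟨hGA hpu.1, Finset.mem_univ _⟩, fun i => ?_⟩
    have h4 := hpu.2 (i + 1) i.2
    rw [X_succ s pu.2 i.2, hsX pu.2 i i.2, ← add_assoc] at h4
    exact h4
  exact_mod_cast Finset.card_le_card h3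

end

end Pool.Agent.Helper57.NX
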